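import Pool.Agent.helper7.PQ.Spec
import Pool.Agent.helper47.SCT.BTI

set_option autoImplicit false

open Finset

noncomputable section

namespace Pool.Agent.PQ

theorem BAD_real (B W y : ℕ) (hB : 0 < B) (hW : 0 < W) (hy : (W ^ 3 + W + 8 * B) ^ 2 ≤ y) :
    2 ≤ 2 * B * (Nat.sqrt (2 * y / B) + 1) / W + 1 ∧
    (((Nat.sqrt (2 * y / B) + 1) - Nat.sqrt (y / B) : ℕ) : ℝ) ≤ √y / √B ∧
    ((2 * B * (Nat.sqrt (2 * y / B) + 1) / W + 1 : ℕ) : ℝ) ≤ 4 * (√y * √B) / W ∧
    Real.log y ≤ 3 * Real.log ((2 * B * (Nat.sqrt (2 * y / B) + 1) / W + 1 : ℕ) : ℝ) := by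
  set c : ℕ := Nat.sqrt (2 * y / B) + 1 with hc
  set a : ℕ := Nat.sqrt (y / B) with ha
  set H : ℕ := 2 * B * c / W + 1 with hH
  have hB' : (1 : ℝ) ≤ B := by exact_mod_cast hB
  have hW' : (1 : ℝ) ≤ W := by exact_mod_cast hW
  set s : ℝ := √(y : ℝ) with hs
  set b : ℝ := √(B : ℝ) with hb
  have hb1 : 1 ≤ b := by
    rw [hb, Real.one_le_sqrt]
    exact hB'
  have hb2 : b * b = B := Real.mul_self_sqrt (by linarith)
  have hs2 : s * s = y := Real.mul_self_sqrt (Nat.cast_nonneg y)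
  have hsy : (W : ℝ) ^ 3 + W + 8 * B ≤ s := by
    rw [hs]
    apply Real.le_sqrt_of_sq_le
    have : (((W ^ 3 + W + 8 * B) ^ 2 : ℕ) : ℝ) ≤ (y : ℕ) := by exact_mod_cast hy
    push_cast at this
    exact this
  have hW3 : 1 ≤ (W : ℝ) ^ 3 := one_le_pow₀ hW'
  have hs0 : 0 < s := by linarith
  have hb0 : 0 < b := by linarith
  have hW0 : (0 : ℝ) < W := by linarith
  have hbB : b ≤ B := by nlinarith
  -- the quotient s / b
  set x : ℝ := s / b with hx
  have hx0 : 0 < x := div_pos hs0 hb0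
  have hxb : x * b = s := by
    rw [hx]
    field_simp
  have hx8 : 8 ≤ x := by
    rw [hx, le_div_iff₀ hb0]
    linarith
  have hx2 : x * x = (y : ℝ) / B := by
    rw [hx, div_mul_div_comm, hs2, hb2]
  have hB0 : (0 : ℝ) < B := by linarith
  -- upper bound for c
  have hc1 : (c : ℝ) ≤ 3 / 2 * x + 1 := by
    have h1 : Nat.sqrt (2 * y / B) * Nat.sqrt (2 * y / B) ≤ 2 * y / B := Nat.sqrt_le _
    have h2 : ((Nat.sqrt (2 * y / B) : ℕ) : ℝ) * (Nat.sqrt (2 * y / B) : ℕ) ≤ ((2 * y / B : ℕ) : ℝ) := by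
      exact_mod_cast h1
    have h3 : ((2 * y / B : ℕ) : ℝ) ≤ ((2 * y : ℕ) : ℝ) / B := Nat.cast_div_le
    have h4 : ((2 * y : ℕ) : ℝ) / B = 2 * (x * x) := by
      rw [hx2]
      push_cast
      ring
    have h5 : ((Nat.sqrt (2 * y / B) : ℕ) : ℝ) ≤ 3 / 2 * x := by
      have h0 : (0 : ℝ) ≤ ((Nat.sqrt (2 * y / B) : ℕ) : ℝ) := Nat.cast_nonneg _
      by_contra hcon
      push Not at hcon
      nlinarith
    rw [hc]
    push_cast
    linarith
  -- lower bound for c
  have hc2 : x ≤ c := by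
    have h1 : 2 * y / B < c * c := by
      have := Nat.lt_succ_sqrt (2 * y / B)
      exact this
    have h2 : 2 * y < c * c * B := by
      rwa [Nat.div_lt_iff_lt_mul hB] at h1
    have h3 : ((2 * y : ℕ) : ℝ) < ((c * c * B : ℕ) : ℝ) := by exact_mod_cast h2
    push_cast at h3
    have h4 : x * x * B = y := by
      rw [hx2]
      field_simp
    have h0 : (0 : ℝ) ≤ c := Nat.cast_nonneg _
    by_contra hcon
    push Not at hcon
    have h5 : (c : ℝ) * c ≤ x * x := by nlinarith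
    have h6 : (c : ℝ) * c * B ≤ x * x * B := mul_le_mul_of_nonneg_right h5 hB0.le
    have h7 : (0 : ℝ) < y := by
      rw [← hs2]
      positivity
    linarith
  -- lower bound for a
  have ha1 : x ≤ a + 1 := by
    have h1 : y / B < (a + 1) * (a + 1) := by
      have := Nat.lt_succ_sqrt (y / B)
      exact this
    have h2 : y < (a + 1) * (a + 1) * B := by
      rwa [Nat.div_lt_iff_lt_mul hB] at h1
    have h3 : ((y : ℕ) : ℝ) < (((a + 1) * (a + 1) * B : ℕ) : ℝ) := by exact_mod_cast h2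
    push_cast at h3
    have h4 : x * x * B = y := by
      rw [hx2]
      field_simp
    have h0 : (0 : ℝ) ≤ a := Nat.cast_nonneg _
    by_contra hcon
    push Not at hcon
    have h5 : ((a : ℝ) + 1) * (a + 1) ≤ x * x := by nlinarith
    have h6 : ((a : ℝ) + 1) * (a + 1) * B ≤ x * x * B := mul_le_mul_of_nonneg_right h5 hB0.le
    linarith
  have hH1 : (H : ℝ) ≤ 2 * B * c / W + 1 := by
    have h1 : ((2 * B * c / W : ℕ) : ℝ) ≤ ((2 * B * c : ℕ) : ℝ) / W := Nat.cast_div_le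
    rw [hH]
    push_cast at h1 ⊢
    linarith
  have hH2 : 2 * B * c / W < (H : ℝ) := by
    have h1 : 2 * B * c < W * (2 * B * c / W + 1) := Nat.lt_mul_div_succ _ hW
    have h2 : ((2 * B * c : ℕ) : ℝ) < ((W * (2 * B * c / W + 1) : ℕ) : ℝ) := by exact_mod_cast h1
    rw [div_lt_iff₀ hW0, hH]
    push_cast at h2 ⊢
    linarith
  have hBx : (B : ℝ) * x = s * b := by
    rw [← hb2, mul_assoc, mul_comm b x, hxb]
    ring
  have hH3 : 2 * (s * b) / W < (H : ℝ) := by
    refine lt_of_le_of_lt ?_ hH2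
    rw [div_le_div_iff_of_pos_right hW0, ← hBx]
    nlinarith
  have hsb : s ≤ s * b := by nlinarith
  have hH4 : (2 : ℝ) < H := by
    refine lt_of_le_of_lt ?_ hH3
    rw [le_div_iff₀ hW0]
    linarith
  refine ⟨?_, ?_, ?_, ?_⟩
  · have : 2 < H := by exact_mod_cast hH4
    omega
  · rcases le_total a c with hac | hac
    · rw [Nat.cast_sub hac]
      linarith
    · rw [Nat.sub_eq_zero_of_le hac, Nat.cast_zero]
      exact hx0.le
  · refine hH1.trans ?_
    have h1 : 2 * (B : ℝ) * c ≤ 3 * (s * b) + 2 * B := by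
      have : (B : ℝ) * c ≤ B * (3 / 2 * x + 1) := mul_le_mul_of_nonneg_left hc1 hB0.le
      nlinarith
    rw [div_add_one hW0.ne', div_le_div_iff_of_pos_right hW0]
    linarith
  · have hHpos : (0 : ℝ) < H := by linarith
    have h1 : s / W ≤ H := by
      refine le_trans ?_ hH3.le
      rw [div_le_div_iff_of_pos_right hW0]
      linarith
    have h2 : (s / W) ^ 3 ≤ (H : ℝ) ^ 3 := pow_le_pow_left₀ (by positivity) h1 3
    have h3 : (y : ℝ) ≤ (s / W) ^ 3 := by
      rw [div_pow, le_div_iff₀ (by positivity), ← hs2]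
      have h4 : (W : ℝ) ^ 3 ≤ s := by linarith
      have h5 : s * s * (W : ℝ) ^ 3 ≤ s * s * s := mul_le_mul_of_nonneg_left h4 (by positivity)
      calc s * s * (W : ℝ) ^ 3 ≤ s * s * s := h5
        _ = s ^ 3 := by ring
    have h6 : (0 : ℝ) < y := by
      rw [← hs2]
      positivity
    have h7 : Real.log y ≤ Real.log ((H : ℝ) ^ 3) := Real.log_le_log h6 (h3.trans h2)
    rw [Real.log_pow] at h7
    exact_mod_cast h7

/-- the fibres of the square root are in short intervals -/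
theorem BAD_fib (B W : ℕ) (hB : 0 < B) (hW : 0 < W) (c U : ℕ) (hU : U + 1 ≤ W * c) (F : Finset ℕ)
    (hF : ∀ p ∈ F, p.Prime ∧ Nat.sqrt (W ^ 2 * p / B) = U) :
    ∃ z : ℕ, F ⊆ (Ioc z (z + (2 * B * c / W + 1))).filter Nat.Prime := by
  rcases F.eq_empty_or_nonempty with hE | hne
  · exact ⟨0, by rw [hE]; exact Finset.empty_subset _⟩
  · obtain ⟨p0, hp0, hmin⟩ := Finset.exists_min_image F id hne
    have hp0' := hF p0 hp0
    have hp1 : 1 ≤ p0 := hp0'.1.one_lt.le
    refine ⟨p0 - 1, fun p hp => ?_⟩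
    have hp' := hF p hp
    have hle : p0 ≤ p := hmin p hp
    rw [Finset.mem_filter, Finset.mem_Ioc]
    refine ⟨⟨by omega, ?_⟩, hp'.1⟩
    have h1 : U * U ≤ W ^ 2 * p0 / B := by
      have := Nat.sqrt_le (W ^ 2 * p0 / B)
      rw [hp0'.2] at this
      exact this
    have h2 : W ^ 2 * p / B < (U + 1) * (U + 1) := by
      have := Nat.lt_succ_sqrt (W ^ 2 * p / B)
      rw [hp'.2] at this
      exact this
    rw [Nat.le_div_iff_mul_le hB] at h1
    rw [Nat.div_lt_iff_lt_mul hB] at h2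
    -- W^2 (p - p0) < B (2 U + 1)
    have h3 : W ^ 2 * (p - p0) < B * (2 * U + 1) := by
      have h4 : W ^ 2 * (p - p0) + W ^ 2 * p0 = W ^ 2 * p := by
        rw [← Nat.mul_add, Nat.sub_add_cancel hle]
      have h5 : (U + 1) * (U + 1) * B = U * U * B + B * (2 * U + 1) := by ring
      omega
    have h6 : B * (2 * U + 1) ≤ W * (2 * B * c) := by
      calc B * (2 * U + 1) ≤ B * (2 * (U + 1)) := Nat.mul_le_mul_left _ (by omega)
        _ ≤ B * (2 * (W * c)) := Nat.mul_le_mul_left _ (Nat.mul_le_mul_left _ hU)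
        _ = W * (2 * B * c) := by ring
    have h7 : W * (W * (p - p0)) < W * (2 * B * c) := by
      calc W * (W * (p - p0)) = W ^ 2 * (p - p0) := by ring
        _ < B * (2 * U + 1) := h3
        _ ≤ _ := h6
    have h8 : W * (p - p0) < 2 * B * c := Nat.lt_of_mul_lt_mul_left h7
    have h9 : p - p0 ≤ 2 * B * c / W := by
      rw [Nat.le_div_iff_mul_le hW, mul_comm]
      exact h8.le
    omega

theorem BAD_rho (ν T K : ℕ) (hT : 0 < T) (hν : T ≤ ν) :
    (((ν - ν / T) ^ K : ℕ) : ℝ) ≤ (ν : ℝ) ^ K * (1 - 1 / (2 * T)) ^ K := by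
  have hT' : (0 : ℝ) < T := by exact_mod_cast hT
  have h1 : 1 ≤ ν / T := (Nat.one_le_div_iff hT).2 hν
  have h2 : ν < (ν / T + 1) * T := by
    rw [mul_comm]
    exact Nat.lt_mul_div_succ ν hT
  have h3 : (ν : ℝ) ≤ 2 * T * ((ν / T : ℕ) : ℝ) := by
    have h4 : ν ≤ 2 * T * (ν / T) := by
      have h5 : (ν / T + 1) * T ≤ (2 * (ν / T)) * T := Nat.mul_le_mul_right _ (by omega)
      calc ν ≤ (ν / T + 1) * T := h2.le
        _ ≤ (2 * (ν / T)) * T := h5
        _ = 2 * T * (ν / T) := by ring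
    exact_mod_cast h4
  have h5 : ((ν - ν / T : ℕ) : ℝ) ≤ ν * (1 - 1 / (2 * T)) := by
    rw [Nat.cast_sub (Nat.div_le_self _ _)]
    have h6 : (ν : ℝ) / (2 * T) ≤ ((ν / T : ℕ) : ℝ) := by
      rw [div_le_iff₀ (by positivity)]
      linarith
    have h7 : (ν : ℝ) * (1 - 1 / (2 * T)) = ν - ν / (2 * T) := by ring
    linarith
  rw [Nat.cast_pow, ← mul_pow]
  exact pow_le_pow_left₀ (Nat.cast_nonneg _) h5 K

theorem BAD (hDIG : DIG_stmt) (hSQD : SQD_stmt) : BAD_stmt := by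
  obtain ⟨C, hC, hbti⟩ := Pool.Agent.SCT.BTI
  refine ⟨12 * C, by positivity, ?_⟩
  intro f T hT hwin ν K B hν hB
  have hν0 : 0 < ν := lt_of_lt_of_le hT hν
  have hW : 0 < ν ^ K := pow_pos hν0 K
  refine ⟨((ν ^ K) ^ 3 + ν ^ K + 8 * B) ^ 2, fun y hy e => ?_⟩
  set W : ℕ := ν ^ K with hWd
  obtain ⟨r1, r2, r3, r4⟩ := BAD_real B W y hB hW hy
  set c : ℕ := Nat.sqrt (2 * y / B) + 1 with hc
  set a : ℕ := Nat.sqrt (y / B) with ha
  set H : ℕ := 2 * B * c / W + 1 with hH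
  -- the set of the values
  obtain ⟨t, ht1, ht2⟩ : ∃ t : Finset ℕ, (∀ U, U ∈ t ↔ (U ∈ Ico (W * a) (W * c) ∧ ∀ i ≤ K, f (U / ν ^ i) = e)) ∧
      #t ≤ (c - a) * (ν - ν / T) ^ K :=
    ⟨_, fun U => Finset.mem_filter, hDIG f T hT hwin ν K a c e hν0⟩
  have key : ∀ s : Finset ℕ, (∀ p ∈ s, p ∈ Ioc y (2 * y) ∧ p.Prime ∧
      ∀ j ≤ K, f (Nat.sqrt (ν ^ (2 * j) * p / B)) = e) →
      (#s : ℝ) ≤ 12 * C * (1 - 1 / (2 * T)) ^ K * y / Real.log y := by
    intro s hsp
    have hmaps : ∀ p ∈ s, Nat.sqrt (W ^ 2 * p / B) ∈ t := by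
      intro p hp
      obtain ⟨h1, h2, h3⟩ := hsp p hp
      rw [Finset.mem_Ioc] at h1
      have hWK : W ^ 2 = ν ^ (2 * K) := by
        rw [hWd, ← pow_mul, mul_comm]
      have h0 := hSQD ν K 0 p B hν0 hB (Nat.zero_le K)
      rw [mul_zero, pow_zero, one_mul, Nat.sub_zero, ← hWK, ← hWd] at h0
      rw [ht1]
      refine ⟨?_, ?_⟩
      · rw [Finset.mem_Ico]
        constructor
        · have h4 : a ≤ Nat.sqrt (W ^ 2 * p / B) / W := by
            rw [← h0]
            exact Nat.sqrt_le_sqrt (Nat.div_le_div_right h1.1.le)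
          rw [Nat.le_div_iff_mul_le hW] at h4
          rw [mul_comm]
          exact h4
        · have h4 : Nat.sqrt (W ^ 2 * p / B) / W < c := by
            rw [← h0, hc]
            exact Nat.lt_succ_of_le (Nat.sqrt_le_sqrt (Nat.div_le_div_right h1.2))
          rw [Nat.div_lt_iff_lt_mul hW] at h4
          rw [mul_comm W c]
          exact h4
      · intro i hi
        have h5 := hSQD ν K (K - i) p B hν0 hB (Nat.sub_le _ _)
        rw [Nat.sub_sub_self hi, ← hWK] at h5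
        rw [← h5]
        exact h3 (K - i) (Nat.sub_le _ _)
    have hfib : ∀ U ∈ t, (#{p ∈ s | Nat.sqrt (W ^ 2 * p / B) = U} : ℝ) ≤ C * H / Real.log H := by
      intro U hU
      have hU1 := ((ht1 U).1 hU).1
      rw [Finset.mem_Ico] at hU1
      obtain ⟨z, hz⟩ := BAD_fib B W hB hW c U hU1.2 {p ∈ s | Nat.sqrt (W ^ 2 * p / B) = U} (fun p hp => by
        rw [Finset.mem_filter] at hp
        exact ⟨(hsp p hp.1).2.1, hp.2⟩)
      have h1 := Finset.card_le_card hz
      have h2 := hbti z H r1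
      calc (#{p ∈ s | Nat.sqrt (W ^ 2 * p / B) = U} : ℝ) ≤
            (#((Ioc z (z + (2 * B * c / W + 1))).filter Nat.Prime) : ℝ) := by exact_mod_cast h1
        _ ≤ C * H / Real.log H := h2
    have hcard : (#s : ℝ) ≤ #t * (C * H / Real.log H) := by
      have h1 := Finset.card_eq_sum_card_fiberwise hmaps
      have h2 : (#s : ℝ) = ∑ U ∈ t, (#{p ∈ s | Nat.sqrt (W ^ 2 * p / B) = U} : ℝ) := by
        exact_mod_cast h1
      rw [h2]
      calc ∑ U ∈ t, (#{p ∈ s | Nat.sqrt (W ^ 2 * p / B) = U} : ℝ) ≤ ∑ U ∈ t, C * H / Real.log H :=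
            Finset.sum_le_sum hfib
        _ = #t * (C * H / Real.log H) := by
            rw [Finset.sum_const, nsmul_eq_mul]
    -- the final computation
    have hyn : 4 ≤ y := by
      have h1 : 1 ≤ W ^ 3 := Nat.one_le_pow _ _ hW
      have h2 : 2 ^ 2 ≤ (W ^ 3 + W + 8 * B) ^ 2 := Nat.pow_le_pow_left (by omega) 2
      omega
    have hlogy : 0 < Real.log y := Real.log_pos (by exact_mod_cast (by omega : 1 < y))
    have hlogH : 0 < Real.log H := by linarith
    have ht3 : (#t : ℝ) ≤ √y / √B * ((W : ℝ) * (1 - 1 / (2 * T)) ^ K) := by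
      have h1 : (#t : ℝ) ≤ ((c - a : ℕ) : ℝ) * (((ν - ν / T) ^ K : ℕ) : ℝ) := by exact_mod_cast ht2
      refine h1.trans ?_
      refine mul_le_mul r2 ?_ (Nat.cast_nonneg _) (by positivity)
      have h2 := BAD_rho ν T K hT hν
      calc (((ν - ν / T) ^ K : ℕ) : ℝ) ≤ (ν : ℝ) ^ K * (1 - 1 / (2 * T)) ^ K := h2
        _ = (W : ℝ) * (1 - 1 / (2 * T)) ^ K := by
            rw [hWd, Nat.cast_pow]
    have hT' : (1 : ℝ) ≤ T := by exact_mod_cast hT
    have hρ : (0 : ℝ) ≤ (1 - 1 / (2 * T)) ^ K := by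
      apply pow_nonneg
      rw [sub_nonneg, div_le_one (by positivity)]
      linarith
    have hW' : (0 : ℝ) < W := by exact_mod_cast hW
    have hB' : (0 : ℝ) < B := by exact_mod_cast hB
    have hHb : C * H / Real.log H ≤ C * (4 * (√y * √B) / W) * (3 / Real.log y) := by
      have h1 : 1 / Real.log H ≤ 3 / Real.log y := by
        rw [div_le_div_iff₀ hlogH hlogy]
        linarith
      calc C * H / Real.log H = C * H * (1 / Real.log H) := by ring
        _ ≤ C * (4 * (√y * √B) / W) * (3 / Real.log y) := by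
            refine mul_le_mul (mul_le_mul_of_nonneg_left r3 hC.le) h1 (by positivity) (by positivity)
    refine hcard.trans ?_
    calc (#t : ℝ) * (C * H / Real.log H) ≤
          (√y / √B * ((W : ℝ) * (1 - 1 / (2 * T)) ^ K)) * (C * (4 * (√y * √B) / W) * (3 / Real.log y)) := by
          refine mul_le_mul ht3 hHb (by positivity) (by positivity)
      _ = 12 * C * (1 - 1 / (2 * T)) ^ K * (√y * √y) / Real.log y := by
          have hsB : √(B : ℝ) ≠ 0 := (Real.sqrt_pos.2 hB').ne'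
          field_simp
          ring
      _ = 12 * C * (1 - 1 / (2 * T)) ^ K * y / Real.log y := by
          rw [Real.mul_self_sqrt (Nat.cast_nonneg y)]
  refine key _ fun p hp => ?_
  rw [Finset.mem_filter] at hp
  exact ⟨hp.1, hp.2⟩

end Pool.Agent.PQ
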